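import Pool.Agent.Helper54.DI.StmtsA

namespace Pool.Agent.Helper54.DI

open Finset Filter Topology

/-- affine forms are affine -/
theorem slin_kev_affine {d : ℕ} (f : KForm d) (x y : Fin d → ℝ) (a b : ℝ) (hab : a + b = 1) :
    kev f (a • x + b • y) = a * kev f x + b * kev f y := by
  unfold kev
  have h1 : ∑ i, (f.1 i : ℝ) * (a • x + b • y) i
      = a * ∑ i, (f.1 i : ℝ) * x i + b * ∑ i, (f.1 i : ℝ) * y i := by
    rw [Finset.mul_sum, Finset.mul_sum, ← Finset.sum_add_distrib]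
    refine Finset.sum_congr rfl fun i _ => ?_
    simp only [Pi.add_apply, Pi.smul_apply, smul_eq_mul]
    ring
  rw [h1]
  have h2 : (f.2 : ℝ) = a * (f.2 : ℝ) + b * (f.2 : ℝ) := by
    rw [← add_mul, hab, one_mul]
  calc a * ∑ i, (f.1 i : ℝ) * x i + b * ∑ i, (f.1 i : ℝ) * y i + (f.2 : ℝ)
      = a * ∑ i, (f.1 i : ℝ) * x i + b * ∑ i, (f.1 i : ℝ) * y i
        + (a * (f.2 : ℝ) + b * (f.2 : ℝ)) := by rw [← h2]
    _ = _ := by ring

/-- pull back of a form along the map that drops the coordinate `l` -/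
noncomputable def slinPull {d : ℕ} (l : Fin (d + 1)) (g : KForm d) : KForm (d + 1) :=
  (Fin.insertNth (α := fun _ => KK) l 0 g.1, g.2)

theorem slin_kev_pull {d : ℕ} (l : Fin (d + 1)) (g : KForm d) (p : Fin (d + 1) → ℝ) :
    kev (slinPull l g) p = kev g (fun j => p (l.succAbove j)) := by
  unfold kev slinPull
  rw [Fin.sum_univ_succAbove _ l]
  simp

/-- the forms for one hyperplane -/
theorem slin_one (NCOMP : ST_NCOMP) (HYP : ST_HYP) {k d : ℕ} (A : Set (Fin k → ℝ))
    (ih : ∀ ι : NM d k, SLin (nev ι ⁻¹' A)) (ι : NM (d + 1) k) (f : KForm (d + 1))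
    (hf : f.1 ≠ 0) :
    ∃ G : List (KForm (d + 1)), ∀ x y : Fin (d + 1) → ℝ,
      (∀ g ∈ G, SignType.sign (kev g x) = SignType.sign (kev g y)) →
      kev f x = 0 → kev f y = 0 → (x ∈ nev ι ⁻¹' A ↔ y ∈ nev ι ⁻¹' A) := by
  obtain ⟨l, hl⟩ := Function.ne_iff.mp hf
  obtain ⟨κ, -, -, hκ⟩ := HYP d f l hl
  obtain ⟨G, hG⟩ := ih (ncomp ι κ)
  refine ⟨G.map (slinPull l), fun x y hs hx hy => ?_⟩
  have e : ∀ p : Fin (d + 1) → ℝ, kev f p = 0 →
      (p ∈ nev ι ⁻¹' A ↔ (fun j => p (l.succAbove j)) ∈ nev (ncomp ι κ) ⁻¹' A) := by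
    intro p hp
    rw [Set.mem_preimage, Set.mem_preimage, NCOMP, hκ p hp]
  rw [e x hx, e y hy]
  refine hG _ _ fun g hg => ?_
  have h := hs (slinPull l g) (List.mem_map_of_mem hg)
  rwa [slin_kev_pull, slin_kev_pull] at h

/-- the forms for a list of hyperplanes -/
theorem slin_list (NCOMP : ST_NCOMP) (HYP : ST_HYP) {k d : ℕ} (A : Set (Fin k → ℝ))
    (ih : ∀ ι : NM d k, SLin (nev ι ⁻¹' A)) (ι : NM (d + 1) k) (L : List (KForm (d + 1)))
    (hL : ∀ f ∈ L, f.1 ≠ 0) :
    ∃ G : List (KForm (d + 1)), ∀ x y : Fin (d + 1) → ℝ,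
      (∀ g ∈ G, SignType.sign (kev g x) = SignType.sign (kev g y)) →
      ∀ f ∈ L, kev f x = 0 → kev f y = 0 → (x ∈ nev ι ⁻¹' A ↔ y ∈ nev ι ⁻¹' A) := by
  induction L with
  | nil => exact ⟨[], fun x y _ f hf => absurd hf (List.not_mem_nil)⟩
  | cons f L IH =>
    obtain ⟨G1, hG1⟩ := slin_one NCOMP HYP A ih ι f (hL f List.mem_cons_self)
    obtain ⟨G2, hG2⟩ := IH fun g hg => hL g (List.mem_cons_of_mem _ hg)
    refine ⟨G1 ++ G2, fun x y hs g hg hx hy => ?_⟩
    rcases List.mem_cons.mp hg with h | h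
    · subst h
      exact hG1 x y (fun g' hg' => hs g' (List.mem_append_left _ hg')) hx hy
    · exact hG2 x y (fun g' hg' => hs g' (List.mem_append_right _ hg')) g h hx hy

theorem slin_nonzero {u v a b : ℝ} (hu : u ≠ 0) (hs : SignType.sign u = SignType.sign v)
    (ha : 0 ≤ a) (hb : 0 ≤ b) (hab : a + b = 1) : a * u + b * v ≠ 0 := by
  rcases lt_or_gt_of_ne hu with h | h
  · have h1 : SignType.sign v = -1 := by rw [← hs]; exact sign_neg h
    have h2 : v < 0 := sign_eq_neg_one_iff.mp h1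
    have h3 : a * u + b * v < 0 := by
      rcases eq_or_lt_of_le ha with h0 | h0
      · have : b = 1 := by rw [← h0] at hab; linarith
        rw [← h0, this]; linarith
      · have := mul_neg_of_pos_of_neg h0 h
        have := mul_nonpos_of_nonneg_of_nonpos hb h2.le
        linarith
    exact h3.ne
  · have h1 : SignType.sign v = 1 := by rw [← hs]; exact sign_pos h
    have h2 : 0 < v := sign_eq_one_iff.mp h1
    have h3 : 0 < a * u + b * v := by
      rcases eq_or_lt_of_le ha with h0 | h0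
      · have : b = 1 := by rw [← h0] at hab; linarith
        rw [← h0, this]; linarith
      · have := mul_pos h0 h
        have := mul_nonneg hb h2.le
        linarith
    exact h3.ne'

theorem st_SLIN (NCOMP : ST_NCOMP) (NID : ST_NID) (_NB : ST_NB) (HYP : ST_HYP)
    (SEG : ST_SEG) : ST_SLIN := by
  intro k A hA
  have key : ∀ (d : ℕ) (ι : NM d k), SLin (nev ι ⁻¹' A) := by
    intro d
    induction d with
    | zero =>
      intro ι
      refine ⟨[], fun x y _ => ?_⟩
      rw [Subsingleton.elim x y]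
    | succ d ih =>
      intro ι
      obtain ⟨L, hL0, hL⟩ := hA (d + 1) ι
      obtain ⟨G, hG⟩ := slin_list NCOMP HYP A ih ι L hL0
      refine ⟨L ++ G, fun x y hs => ?_⟩
      by_cases hz : ∃ f ∈ L, kev f x = 0
      · obtain ⟨f, hf, hx⟩ := hz
        have h1 := hs f (List.mem_append_left _ hf)
        have hy : kev f y = 0 := by
          rw [hx, sign_zero] at h1
          exact sign_eq_zero_iff.mp h1.symm
        exact hG x y (fun g hg => hs g (List.mem_append_right _ hg)) f hf hx hy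
      · refine SEG _ _ x y fun t ht hfr => ?_
        obtain ⟨f, hf, ht0⟩ := hL t hfr
        obtain ⟨a, b, ha, hb, hab, rfl⟩ := ht
        rw [slin_kev_affine f x y a b hab] at ht0
        refine slin_nonzero ?_ (hs f (List.mem_append_left _ hf)) ha hb hab ht0
        intro h0
        exact hz ⟨f, hf, h0⟩
  have h := key k (nid k)
  have e : nev (nid k) ⁻¹' A = A := by
    ext x
    rw [Set.mem_preimage, NID]
  rwa [e] at h

end Pool.Agent.Helper54.DI
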